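import Pool.Agent.X271.VSlope

/-!
# Asymptotic local v-numbers at maximal stable primes

For every field `K` and every `m ≥ 2` the ideal `I = (y², y z^m, x z^{2m})` of `K[x,y,z]` has
initial degree `2`, the prime `p = (x,y)` is a maximal element of the stable set of associated
primes, and `v_p(I^k) = (m+1) k + (m-1)` for all `k ≥ 1`.  So `lim v_p(I^k)/k = m + 1 ≠ 2 = α(I)`.
-/

namespace Pool.Agent.Results.MP_ad771b_al.SteepMaximalPrime

open MvPolynomial Pool.Agent.X271.VNum Pool.Agent.X271.VSlope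

theorem result :
    (∀ (K : Type*) [Field K] (m : ℕ), 2 ≤ m →
      IsHomog (slopeIdeal K m) ∧ slopeIdeal K m ≠ ⊥ ∧ slopeIdeal K m ≠ ⊤ ∧
      Maximal (fun q => q ∈ stablePrimes (slopeIdeal K m)) (xyPrime K) ∧
      initDegree (slopeIdeal K m) = 2 ∧
      (∀ j : ℕ, xyPrime K ∈ associatedPrimes (MvPolynomial (Fin 3) K)
          (MvPolynomial (Fin 3) K ⧸ slopeIdeal K m ^ (j + 1)) ∧
        localV (xyPrime K) (slopeIdeal K m ^ (j + 1)) = (m + 1) * (j + 1) + m - 1) ∧
      Filter.Tendsto (fun k : ℕ => (localV (xyPrime K) (slopeIdeal K m ^ k) : ℝ) / k)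
        Filter.atTop (nhds (m + 1 : ℝ))) :=
  fun _ _ _ hm => ⟨slope_isHomog, slope_ne_bot, slope_ne_top, xy_maximal_stable,
    initDegree_slope (by omega), fun j => ⟨xy_mem_ass (by omega), localV_slope j⟩, tendsto_slope⟩

end Pool.Agent.Results.MP_ad771b_al.SteepMaximalPrime
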